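import Mathlib

set_option autoImplicit false

/-!
# Fans, `k`-spaces and topological groups

For a compact Hausdorff first countable space `H` with at least two points and a set `I` let
`Sp H I` be the space of all `x ∈ H ^ I` which are constant off a countable set.  Every countable
subset of it has compact closure, so it contains no fan.  It is a `k`-space if and only if it is a
`k_R`-space, if and only if `I` has at most `ℵ_1` elements.  If `H` is a group, then this is a
dense subgroup `Gp H I` of `H ^ I`, and (for more than `ℵ_1` coordinates) the limit value is a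
discontinuous homomorphism to `H` which is continuous on all compact sets.
-/

open Set Topology Filter
open Cardinal hiding univ

namespace Pool.Agent.Results.MP_99bf3a_gt.GroupsThreshold

universe u v w x y

/-- The indexed family `F` is compact-finite: every compact set meets `F i` for only finitely
many indices `i`. -/
def CompactFinite {X : Type x} [TopologicalSpace X] {ι : Type v} (F : ι → Set X) : Prop :=
  ∀ K : Set X, IsCompact K → {i | (F i ∩ K).Nonempty}.Finite

/-- The indexed family `F` is a fan: compact-finite but not locally finite. -/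
def IsFan {X : Type x} [TopologicalSpace X] {ι : Type v} (F : ι → Set X) : Prop :=
  CompactFinite F ∧ ¬ LocallyFinite F

/-- The indexed family `F` is a Cld-fan: a fan all of whose members are closed. -/
def IsCldFan {X : Type x} [TopologicalSpace X] {ι : Type v} (F : ι → Set X) : Prop :=
  IsFan F ∧ ∀ i, IsClosed (F i)

/-- `X` is a `k`-space: a set `C` is closed as soon as `C ∩ K` is closed in `K` for every compact
`K`. -/
def IsKSpace (X : Type x) [TopologicalSpace X] : Prop :=
  ∀ C : Set X, (∀ K : Set X, IsCompact K → IsClosed ((↑) ⁻¹' C : Set K)) → IsClosed C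

/-- `X` is a `k_R`-space: a real function is continuous as soon as its restrictions to all compact
sets are continuous. -/
def IsKRSpace (X : Type x) [TopologicalSpace X] : Prop :=
  ∀ f : X → ℝ, (∀ K : Set X, IsCompact K → ContinuousOn f K) → Continuous f

/-- every countable subset of `X` has compact closure -/
def OmegaBounded (X : Type x) [TopologicalSpace X] : Prop :=
  ∀ s : Set X, s.Countable → IsCompact (closure s)

/-- `X` contains no fan (with index set in the universe `v`) -/
def NoFan (X : Type x) [TopologicalSpace X] : Prop :=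
  ∀ (ι : Type v) (F : ι → Set X), ¬ IsFan F

/-- `X` contains no Cld-fan (with index set in the universe `v`) -/
def NoCldFan (X : Type x) [TopologicalSpace X] : Prop :=
  ∀ (ι : Type v) (F : ι → Set X), ¬ IsCldFan F

/-- the functions `I → H` which are constant off a countable set -/
def cc (H : Type w) (I : Type u) : Set (I → H) := {x | ∃ h, {i | x i ≠ h}.Countable}

/-- the space of all functions `I → H` which are constant off a countable set, with the topology
of pointwise convergence -/
abbrev Sp (H : Type w) (I : Type u) : Type (max u w) := {x : I → H // x ∈ cc H I}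

section general

variable {X : Type x} [TopologicalSpace X] {Y : Type y} [TopologicalSpace Y]

lemma kspace_cont (hX : IsKSpace X) (f : X → Y)
    (hf : ∀ K : Set X, IsCompact K → ContinuousOn f K) : Continuous f := by
  rw [continuous_iff_isClosed]
  intro V hV
  apply hX
  intro K hK
  have h1 := (continuousOn_iff_continuous_domRestrict.1 (hf K hK))
  exact hV.preimage h1

lemma kspace_kR (hX : IsKSpace X) : IsKRSpace X := fun f hf => kspace_cont hX f hf

lemma no_fan_of (hX : ∀ s : Set X, s.Countable → IsCompact (closure s)) {ι : Type v}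
    (F : ι → Set X) : ¬ IsFan F := by
  rintro ⟨h1, h2⟩
  apply h2
  have hfin : {i | (F i).Nonempty}.Finite := by
    by_contra hinf
    have hinf' : {i | (F i).Nonempty}.Infinite := hinf
    let e := hinf'.natEmbedding
    have hx : ∀ n, ∃ x, x ∈ F (e n) := fun n => (e n).2
    choose x hx using hx
    have h3 := h1 _ (hX (range x) (countable_range x))
    refine (infinite_of_injective_forall_mem (f := fun n => (e n : ι)) ?_ ?_) h3
    · exact Subtype.val_injective.comp e.injective
    · intro n
      exact ⟨x n, hx n, subset_closure ⟨n, rfl⟩⟩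
  intro x
  refine ⟨univ, univ_mem, hfin.subset ?_⟩
  rintro i ⟨y, hy, _⟩
  exact ⟨y, hy⟩

end general

section closing

variable {I : Type u}

lemma close_off (g : Finset I → Set I) (hg : ∀ E, (g E).Countable) (B : Set I)
    (hB : B.Countable) :
    ∃ A : Set I, A.Countable ∧ B ⊆ A ∧ ∀ E : Finset I, (E : Set I) ⊆ A → g E ⊆ A := by
  classical
  let op : Set I → Set I := fun S => S ∪ ⋃ E : Finset S, g (E.map (Function.Embedding.subtype _))
  have h1 : ∀ S : Set I, S.Countable → (op S).Countable := by
    intro S hS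
    have : Countable S := hS.to_subtype
    exact hS.union (countable_iUnion fun E => hg _)
  have h2 : ∀ k, (op^[k] B).Countable := by
    intro k
    induction k with
    | zero => exact hB
    | succ n ih =>
      rw [Function.iterate_succ_apply']
      exact h1 _ ih
  have h3 : Monotone fun k => op^[k] B := by
    apply monotone_nat_of_le_succ
    intro n
    rw [Function.iterate_succ_apply']
    exact subset_union_left
  refine ⟨⋃ k, op^[k] B, countable_iUnion h2, subset_iUnion (fun k => op^[k] B) 0, ?_⟩
  intro E hE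
  obtain ⟨k, hk⟩ := Directed.exists_mem_subset_of_finset_subset_biUnion h3.directed_le hE
  have h4 : g E ⊆ op^[k + 1] B := by
    rw [Function.iterate_succ_apply']
    refine subset_union_of_subset_right ?_ _
    have h5 : (E.subtype (· ∈ op^[k] B)).map (Function.Embedding.subtype _) = E :=
      Finset.subtype_map_of_mem fun i hi => hk hi
    intro i hi
    refine mem_iUnion.2 ⟨E.subtype (· ∈ op^[k] B), ?_⟩
    rw [h5]
    exact hi
  exact h4.trans (subset_iUnion (fun k => op^[k] B) (k + 1))

end closing

section spaces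

variable {H : Type w} {I : Type u}

/-- the functions which are constant off `A`, with value in `V` there -/
def GA (A : Set I) (V : Set H) : Set (I → H) := {x | ∃ h ∈ V, ∀ i, i ∉ A → x i = h}

open Classical in
/-- `p` on `A` and `v` off `A` -/
noncomputable def mix (p : I → H) (A : Set I) (v : H) : I → H := fun i => if i ∈ A then p i else v

lemma mix_of_mem (p : I → H) {A : Set I} (v : H) {i : I} (hi : i ∈ A) : mix p A v i = p i :=
  if_pos hi

lemma mix_of_notMem (p : I → H) {A : Set I} (v : H) {i : I} (hi : i ∉ A) : mix p A v i = v :=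
  if_neg hi

lemma mix_cc (p : I → H) {A : Set I} (hA : A.Countable) (v : H) : mix p A v ∈ cc H I := by
  refine ⟨v, hA.mono ?_⟩
  intro i hi
  by_contra h
  exact hi (mix_of_notMem p v h)

lemma GA_sub {A : Set I} (hA : A.Countable) (V : Set H) : GA A V ⊆ cc H I := by
  rintro x ⟨h, _, hx⟩
  refine ⟨h, hA.mono ?_⟩
  intro i hi
  by_contra hn
  exact hi (hx i hn)

/-- uniqueness of the value at infinity -/
lemma uniq [Uncountable I] {x : I → H} {g h : H} (h1 : {i | x i ≠ g}.Countable)
    (h2 : {i | x i ≠ h}.Countable) : g = h := by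
  by_contra hne
  have h3 : (univ : Set I).Countable := by
    refine (h1.union h2).mono ?_
    intro i _
    by_cases hi : x i = g
    · right
      intro h4
      exact hne (hi.symm.trans h4)
    · left
      exact hi
  exact not_countable_univ h3

variable [TopologicalSpace H]

lemma GA_compact [CompactSpace H] (A : Set I) (V : Set H) (hV : IsCompact V) :
    IsCompact (GA A V) := by
  have h1 : GA A V = (fun q : (I → H) × H => mix q.1 A q.2) '' (univ ×ˢ V) := by
    ext x
    constructor
    · rintro ⟨h, hh, hx⟩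
      refine ⟨(x, h), ⟨trivial, hh⟩, ?_⟩
      funext i
      by_cases hi : i ∈ A
      · exact mix_of_mem _ _ hi
      · rw [hx i hi]
        exact mix_of_notMem _ _ hi
    · rintro ⟨⟨q, h⟩, ⟨-, hh⟩, rfl⟩
      exact ⟨h, hh, fun i hi => mix_of_notMem _ _ hi⟩
  rw [h1]
  apply (isCompact_univ.prod hV).image
  apply continuous_pi
  intro i
  by_cases hi : i ∈ A
  · have : (fun q : (I → H) × H => mix q.1 A q.2 i) = fun q => q.1 i := by
      funext q
      exact mix_of_mem _ _ hi
    rw [this]
    exact (continuous_apply i).comp continuous_fst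
  · have : (fun q : (I → H) × H => mix q.1 A q.2 i) = fun q => q.2 := by
      funext q
      exact mix_of_notMem _ _ hi
    rw [this]
    exact continuous_snd

lemma isCompact_preimage_val {M : Set (I → H)} (hM : IsCompact M) (hMc : M ⊆ cc H I) :
    IsCompact ((↑) ⁻¹' M : Set (Sp H I)) := by
  have hind : Topology.IsInducing (Subtype.val : Sp H I → (I → H)) :=
    Topology.IsInducing.subtypeVal
  rw [hind.isCompact_iff]
  have : ((↑) : Sp H I → (I → H)) '' ((↑) ⁻¹' M) = M := by
    rw [image_preimage_eq_iff]
    intro y hy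
    exact ⟨⟨y, hMc hy⟩, rfl⟩
  rw [this]
  exact hM

lemma closure_compact [CompactSpace H] [T2Space H] (s : Set (Sp H I)) (hs : s.Countable) :
    IsCompact (closure s) := by
  let A : Set I := ⋃ x ∈ s, {i | x.1 i ≠ Classical.choose x.2}
  have hA : A.Countable := hs.biUnion fun x _ => Classical.choose_spec x.2
  have h1 : IsCompact ((↑) ⁻¹' (GA A (univ : Set H)) : Set (Sp H I)) :=
    isCompact_preimage_val (GA_compact A univ isCompact_univ) (GA_sub hA univ)
  refine h1.closure_of_subset ?_
  intro x hx
  refine ⟨Classical.choose x.2, trivial, fun i hi => ?_⟩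
  by_contra hne
  apply hi
  simp only [A, mem_iUnion]
  exact ⟨x, hx, hne⟩

lemma mem_closure_of_finset {Y : Set (I → H)} {p : I → H}
    (h : ∀ E : Finset I, ∃ x : I → H, x ∈ Y ∧ ∀ e ∈ E, x e = p e) : p ∈ closure Y := by
  rw [mem_closure_iff]
  intro O hO hp
  rw [isOpen_pi_iff] at hO
  obtain ⟨E, U, hU, hsub⟩ := hO p hp
  obtain ⟨x, hx, hxe⟩ := h E
  refine ⟨x, hsub ?_, hx⟩
  intro e he
  rw [hxe e he]
  exact (hU e he).2

/-- the closing-off lemma -/
lemma key [CompactSpace H] [T2Space H] [FirstCountableTopology H] (D : Set (I → H))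
    (hD : ∀ A : Set I, A.Countable → IsCompact (D ∩ GA A univ)) (hDc : D ⊆ cc H I)
    (p : I → H) (hp : p ∈ closure D) (wt : I → Set I) (hwt : ∀ i, (wt i).Countable)
    (B : Set I) (hB : B.Countable) :
    ∃ A : Set I, A.Countable ∧ B ⊆ A ∧ (∀ i ∈ A, wt i ⊆ A) ∧ ∃ v, mix p A v ∈ D := by
  classical
  have hU : ∀ h : H, ∃ U : ℕ → Set H, (𝓝 h).HasAntitoneBasis U := fun h =>
    (𝓝 h).exists_antitone_basis
  choose U hU using hU
  have h1 : ∀ (E : Finset I) (n : ℕ), ∃ y ∈ D, ∀ e ∈ E, y e ∈ U (p e) n := by
    intro E n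
    rw [mem_closure_iff_nhds] at hp
    obtain ⟨y, hy1, hy2⟩ := hp _ (set_pi_mem_nhds E.finite_toSet
      (fun e _ => (hU (p e)).mem n))
    exact ⟨y, hy2, fun e he => hy1 e he⟩
  choose y hyD hy using h1
  have h2 : ∀ (E : Finset I) (n : ℕ), ∃ h, {i | y E n i ≠ h}.Countable := fun E n =>
    hDc (hyD E n)
  choose c hc using h2
  obtain ⟨A, hA, hBA, hclose⟩ := close_off
    (fun E => (⋃ n, {i | y E n i ≠ c E n}) ∪ ⋃ e ∈ E, wt e)
    (fun E => (countable_iUnion fun n => hc E n).union
      (E.finite_toSet.countable.biUnion fun e _ => hwt e)) B hB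
  have hQ : ∀ (E : Finset I), (E : Set I) ⊆ A → ∀ n, y E n ∈ D ∩ GA A univ := by
    intro E hE n
    refine ⟨hyD E n, c E n, trivial, fun i hi => ?_⟩
    by_contra hne
    exact hi (hclose E hE (Or.inl (mem_iUnion.2 ⟨n, hne⟩)))
  let r : (I → H) → (A → H) := fun z a => z a
  have hr : Continuous r := continuous_pi fun a => continuous_apply _
  have hcl : IsClosed (r '' (D ∩ GA A univ)) := ((hD A hA).image hr).isClosed
  have hmem : r p ∈ closure (r '' (D ∩ GA A univ)) := by
    rw [mem_closure_iff_nhds]
    intro t ht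
    rw [nhds_pi, (Filter.hasBasis_pi fun a : A => (hU (r p a)).toHasBasis).mem_iff] at ht
    obtain ⟨⟨S, f⟩, ⟨hS, -⟩, hsub⟩ := ht
    let E : Finset I := hS.toFinset.map (Function.Embedding.subtype _)
    have hE : (E : Set I) ⊆ A := by
      intro i hi
      obtain ⟨a, -, rfl⟩ := Finset.mem_map.1 (Finset.mem_coe.1 hi)
      exact a.2
    let n : ℕ := hS.toFinset.sup f
    refine ⟨r (y E n), hsub ?_, mem_image_of_mem _ (hQ E hE n)⟩
    intro a ha
    have h3 : (a : I) ∈ E := Finset.mem_map.2 ⟨a, hS.mem_toFinset.2 ha, rfl⟩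
    have h4 : f a ≤ n := Finset.le_sup (f := f) (hS.mem_toFinset.2 ha)
    exact (hU (p a)).antitone h4 (hy E n a h3)
  rw [hcl.closure_eq] at hmem
  obtain ⟨z, ⟨hzD, v, -, hzv⟩, hz⟩ := hmem
  refine ⟨A, hA, hBA, ?_, v, ?_⟩
  · intro i hi
    have h5 := hclose {i} (by simpa using hi)
    refine (subset_union_of_subset_right ?_ _).trans h5
    intro j hj
    exact mem_iUnion₂.2 ⟨i, Finset.mem_singleton_self i, hj⟩
  · have : mix p A v = z := by
      funext i
      by_cases hi : i ∈ A
      · rw [mix_of_mem _ _ hi]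
        exact (congrFun hz ⟨i, hi⟩).symm
      · rw [mix_of_notMem _ _ hi, hzv i hi]
    rw [this]
    exact hzD

end spaces

section large

variable {H : Type w} {I : Type u}

/-- the union of a chain of countable sets has at most `ℵ_1` elements -/
lemma chain_card (M : Set (Set I)) (hM : IsChain (· ⊆ ·) M) (hc : ∀ A ∈ M, A.Countable) :
    #(⋃₀ M : Set I) ≤ ℵ_ 1 := by
  by_contra hlt
  rw [not_le] at hlt
  obtain ⟨T, hT⟩ : ∃ T : Set (⋃₀ M : Set I), #T = ℵ_ 1 := Cardinal.le_mk_iff_exists_set.1 hlt.le
  have hTunc : ¬ T.Countable := by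
    rw [← Cardinal.le_aleph0_iff_set_countable, hT, not_le]
    exact Cardinal.aleph0_lt_aleph_one
  choose C hCM hC using fun t : (⋃₀ M : Set I) => (t.2 : ∃ A ∈ M, (t : I) ∈ A)
  have h1 : (univ : Set (⋃₀ M : Set I)) ⊆ ⋃ t : T, {s | (s : I) ∈ C t} := by
    intro s _
    by_contra hs
    have h2 : ∀ t ∈ T, (t : I) ∈ C s := by
      intro t ht
      rcases hM.total (hCM s) (hCM t) with h3 | h3
      · exact absurd (mem_iUnion.2 ⟨⟨t, ht⟩, h3 (hC s)⟩) hs
      · exact h3 (hC t)
    apply hTunc
    have h3 := (hc _ (hCM s)).preimage (Subtype.val_injective (p := fun i => i ∈ ⋃₀ M))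
    exact h3.mono fun t ht => h2 t ht
  have h2 : #(univ : Set (⋃₀ M : Set I)) ≤ ℵ_ 1 := by
    refine (Cardinal.mk_le_mk_of_subset h1).trans ((Cardinal.mk_iUnion_le _).trans ?_)
    rw [hT]
    have h3 : (⨆ t : T, #{s : (⋃₀ M : Set I) | (s : I) ∈ C t}) ≤ ℵ₀ := by
      apply ciSup_le'
      intro t
      rw [Cardinal.le_aleph0_iff_set_countable]
      exact (hc _ (hCM t)).preimage (Subtype.val_injective (p := fun i => i ∈ ⋃₀ M))
    calc ℵ_ 1 * _ ≤ ℵ_ 1 * ℵ₀ := mul_le_mul_right h3 _
      _ = ℵ_ 1 := Cardinal.mul_aleph0_eq Cardinal.aleph0_lt_aleph_one.le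
  rw [Cardinal.mk_univ] at h2
  exact absurd h2 (not_le.2 hlt)

lemma unc_of_lt (hI : ℵ_ 1 < #I) : Uncountable I := by
  rw [← Cardinal.aleph0_lt_mk_iff]
  exact Cardinal.aleph0_lt_aleph_one.trans hI

variable [TopologicalSpace H] [CompactSpace H] [T2Space H] [FirstCountableTopology H]

lemma lim_closed (hI : ℵ_ 1 < #I) (K : Set (I → H)) (hK : IsCompact K) (hKc : K ⊆ cc H I)
    (V : Set H) (hV : IsClosed V) :
    IsClosed {x | x ∈ K ∧ ∃ v ∈ V, {i | x i ≠ v}.Countable} := by
  have hIu : Uncountable I := unc_of_lt hI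
  set D : Set (I → H) := {x | x ∈ K ∧ ∃ v ∈ V, {i | x i ≠ v}.Countable} with hDdef
  have hcm : ∀ (A : Set I), A.Countable → ∀ (x : I → H) (h : H), (∀ i, i ∉ A → x i = h) →
      {i | x i ≠ h}.Countable := by
    intro A hA x h hx
    refine hA.mono ?_
    intro i hi
    by_contra hn
    exact hi (hx i hn)
  have hDA : ∀ A : Set I, A.Countable → IsCompact (D ∩ GA A univ) := by
    intro A hA
    have : D ∩ GA A univ = K ∩ GA A V := by
      ext x
      constructor
      · rintro ⟨⟨hxK, v, hv, hxv⟩, h, -, hxh⟩
        refine ⟨hxK, h, ?_, hxh⟩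
        have : v = h := uniq hxv (hcm A hA x h hxh)
        rwa [← this]
      · rintro ⟨hxK, h, hh, hxh⟩
        exact ⟨⟨hxK, h, hh, hcm A hA x h hxh⟩, h, trivial, hxh⟩
    rw [this]
    exact hK.inter (GA_compact A V hV.isCompact)
  rw [← closure_subset_iff_isClosed]
  intro p hp
  have hpK : p ∈ K := (hK.isClosed.closure_subset_iff.2 (fun x (hx : x ∈ D) => hx.1)) hp
  obtain ⟨h, hh⟩ := hKc hpK
  by_contra hpD
  have hhV : h ∉ V := fun hv => hpD ⟨hpK, h, hv, hh⟩
  let F : Set (Set I) := {A | A.Countable ∧ ∃ v, mix p A v ∈ D}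
  have hcof : ∀ B : Set I, B.Countable → ∃ A ∈ F, B ⊆ A := by
    intro B hB
    obtain ⟨A, hA, hBA, -, v, hv⟩ := key D hDA (fun x hx => hKc hx.1) p hp (fun _ => ∅)
      (fun _ => countable_empty) B hB
    exact ⟨A, ⟨hA, v, hv⟩, hBA⟩
  let r : F → F → Prop := fun a b => (a : Set I) ⊆ b
  have hN : IsMaxChain r (maxChain r) := maxChain_spec
  set N : Set F := maxChain r with hNdef
  let M : Set (Set I) := Subtype.val '' N
  have hMF : ∀ A ∈ M, A ∈ F := by
    rintro _ ⟨A, -, rfl⟩
    exact A.2
  have hM : IsChain (· ⊆ ·) M := by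
    rintro _ ⟨A, hA, rfl⟩ _ ⟨B, hB, rfl⟩ hne
    exact hN.1 hA hB (fun h => hne (congrArg Subtype.val h))
  let S : Set I := ⋃₀ M
  have hScard : #S ≤ ℵ_ 1 := chain_card M hM fun A hA => (hMF A hA).1
  have hS1 : ¬ S.Countable := by
    intro hS
    have : ∃ i, i ∉ S := by
      by_contra hn
      push Not at hn
      exact not_countable_univ (hS.mono fun i _ => hn i)
    obtain ⟨i, hi⟩ := this
    obtain ⟨A, hA, hBA⟩ := hcof (insert i S) (hS.insert i)
    have hch : IsChain r (insert ⟨A, hA⟩ N) := by
      apply hN.1.insert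
      intro b hb _
      right
      have h1 : (b : Set I) ⊆ S := subset_sUnion_of_mem ⟨b, hb, rfl⟩
      exact h1.trans ((subset_insert i S).trans hBA)
    have h2 : N = insert ⟨A, hA⟩ N := hN.2 hch (subset_insert _ _)
    have h3 : (⟨A, hA⟩ : F) ∈ N := by
      rw [h2]
      exact mem_insert _ _
    have h4 : A ⊆ S := subset_sUnion_of_mem ⟨⟨A, hA⟩, h3, rfl⟩
    exact hi (h4 (hBA (mem_insert i S)))
  have hS2 : ¬ (Sᶜ).Countable := by
    intro hS
    have h1 : #S + #(Sᶜ : Set I) = #I := Cardinal.mk_sum_compl S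
    have h2 : #(Sᶜ : Set I) ≤ ℵ₀ := Cardinal.le_aleph0_iff_set_countable.2 hS
    have h3 : #I ≤ ℵ_ 1 := by
      rw [← h1]
      refine (add_le_add hScard h2).trans ?_
      rw [Cardinal.add_eq_left Cardinal.aleph0_lt_aleph_one.le
        Cardinal.aleph0_lt_aleph_one.le]
    exact absurd h3 (not_le.2 hI)
  have hMne : Nonempty M := by
    by_contra hn
    apply hS1
    have : S = ∅ := by
      rw [eq_empty_iff_forall_notMem]
      rintro i ⟨A, hA, -⟩
      exact hn ⟨⟨A, hA⟩⟩
    rw [this]
    exact countable_empty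
  let G : M → Set (I → H) := fun A => (K ∩ GA S V) ∩ {x | ∀ i ∈ (A : Set I), x i = p i}
  have hcl : ∀ A : M, IsClosed {x : I → H | ∀ i ∈ (A : Set I), x i = p i} := by
    intro A
    have : {x : I → H | ∀ i ∈ (A : Set I), x i = p i} =
        ⋂ i ∈ (A : Set I), {x : I → H | x i = p i} := by
      ext x
      simp
    rw [this]
    exact isClosed_biInter fun i _ => isClosed_eq (continuous_apply i) continuous_const
  have hKG : IsCompact (K ∩ GA S V) := hK.inter (GA_compact S V hV.isCompact)
  have hne : (⋂ A, G A).Nonempty := by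
    apply IsCompact.nonempty_iInter_of_directed_nonempty_isCompact_isClosed
    · intro A B
      rcases hM.total A.2 B.2 with h1 | h1
      · exact ⟨B, fun x hx => ⟨hx.1, fun i hi => hx.2 i (h1 hi)⟩, fun x hx => hx⟩
      · exact ⟨A, fun x hx => hx, fun x hx => ⟨hx.1, fun i hi => hx.2 i (h1 hi)⟩⟩
    · intro A
      obtain ⟨hA, v, hvK, v', hv', hvv⟩ := hMF A A.2
      have h1 : v = v' := uniq (hcm A hA (mix p A v) v fun i hi => mix_of_notMem _ _ hi) hvv
      refine ⟨mix p A v, ⟨hvK, v, h1 ▸ hv', fun i hi => ?_⟩, fun i hi => mix_of_mem _ _ hi⟩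
      apply mix_of_notMem
      intro h2
      exact hi (subset_sUnion_of_mem A.2 h2)
    · intro A
      exact hKG.inter_right (hcl A)
    · intro A
      exact hKG.isClosed.inter (hcl A)
  obtain ⟨x, hx⟩ := hne
  rw [mem_iInter] at hx
  obtain ⟨A0⟩ := hMne
  obtain ⟨⟨hxK, v, hv, hxv⟩, -⟩ := hx A0
  obtain ⟨g, hg⟩ := hKc hxK
  have hxS : ∀ i ∈ S, x i = p i := by
    rintro i ⟨A, hA, hi⟩
    exact (hx ⟨A, hA⟩).2 i hi
  have e1 : g = h := by
    by_contra hne
    apply hS1
    refine (hg.union hh).mono ?_
    intro i hi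
    by_cases h1 : x i = g
    · right
      intro h2
      exact hne (h1.symm.trans ((hxS i hi).trans h2))
    · left
      exact h1
  have e2 : g = v := by
    by_contra hne
    apply hS2
    refine hg.mono ?_
    intro i hi h1
    exact hne (h1.symm.trans (hxv i hi))
  exact hhV (e1 ▸ e2 ▸ hv)

end large

section lim

variable {H : Type w} {I : Type u}

/-- the value off a countable set -/
noncomputable def lim (x : Sp H I) : H := Classical.choose x.2

lemma lim_spec (x : Sp H I) : {i | x.1 i ≠ lim x}.Countable := Classical.choose_spec x.2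

lemma lim_eq [Uncountable I] (x : Sp H I) {h : H} (hx : {i | x.1 i ≠ h}.Countable) :
    lim x = h := uniq (lim_spec x) hx

variable [TopologicalSpace H]

lemma lim_contOn [CompactSpace H] [T2Space H] [FirstCountableTopology H]
    (hI : ℵ_ 1 < #I) (K : Set (Sp H I)) (hK : IsCompact K) :
    ContinuousOn lim K := by
  have hIu : Uncountable I := unc_of_lt hI
  rw [continuousOn_iff_isClosed]
  intro V hV
  have h1 := lim_closed hI (Subtype.val '' K) (hK.image continuous_subtype_val)
    (by rintro _ ⟨x, _, rfl⟩; exact x.2) V hV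
  refine ⟨_, h1.preimage (continuous_subtype_val (p := fun x => x ∈ cc H I)), ?_⟩
  ext x
  constructor
  · rintro ⟨hx1, hx2⟩
    exact ⟨⟨⟨x, hx2, rfl⟩, lim x, hx1, lim_spec x⟩, hx2⟩
  · rintro ⟨⟨-, v, hv, hxv⟩, hx2⟩
    refine ⟨?_, hx2⟩
    rw [mem_preimage, lim_eq x hxv]
    exact hv

lemma not_cont [Uncountable I] {Y : Type y} [TopologicalSpace Y] [T2Space Y] (f : H → Y)
    {a b : H} (hab : f a ≠ f b) : ¬ Continuous fun x : Sp H I => f (lim x) := by
  classical
  intro hf
  let p : Sp H I := ⟨fun _ => a, a, by simp⟩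
  have hp : lim p = a := lim_eq p (by simp [p])
  let C : Set (Sp H I) := {x | f (lim x) = f b}
  have hC : IsClosed C := isClosed_eq hf continuous_const
  have hpC : p ∈ closure C := by
    rw [Topology.IsInducing.subtypeVal.closure_eq_preimage_closure_image]
    apply mem_closure_of_finset
    intro E
    let z : Sp H I := ⟨mix p.1 E b, mix_cc _ E.finite_toSet.countable b⟩
    have hz : lim z = b := by
      apply lim_eq
      refine E.finite_toSet.countable.mono ?_
      intro i hi
      by_contra hn
      exact hi (mix_of_notMem _ _ hn)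
    refine ⟨z.1, ⟨z, ?_, rfl⟩, fun e he => mix_of_mem _ _ he⟩
    change f (lim z) = f b
    rw [hz]
  rw [hC.closure_eq] at hpC
  apply hab
  have h1 : f (lim p) = f b := hpC
  rwa [hp] at h1

end lim

section small

variable {H : Type w} {I : Type u} [TopologicalSpace H] [CompactSpace H] [T2Space H]
  [FirstCountableTopology H]

omit [T2Space H] [FirstCountableTopology H] in
lemma mix_compact (r : I → I → Prop) (p : I → H) :
    IsCompact {x : I → H | ∃ A : Set I, (∀ i ∈ A, {j | r j i} ⊆ A) ∧ ∃ v, mix p A v = x} := by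
  classical
  let Z : Set (I → Bool) := {χ | ∀ i j, r j i → χ i = true → χ j = true}
  have hZ : IsClosed Z := by
    have : Z = ⋂ i, ⋂ j, ⋂ _ : r j i, {χ : I → Bool | χ i = true → χ j = true} := by
      ext χ
      simp [Z]
    rw [this]
    refine isClosed_iInter fun i => isClosed_iInter fun j => isClosed_iInter fun _ => ?_
    have h1 : Continuous fun χ : I → Bool => (χ i, χ j) :=
      (continuous_apply i).prodMk (continuous_apply j)
    exact (isClosed_discrete {q : Bool × Bool | q.1 = true → q.2 = true}).preimage h1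
  have h1 : {x : I → H | ∃ A : Set I, (∀ i ∈ A, {j | r j i} ⊆ A) ∧ ∃ v, mix p A v = x} =
      (fun q : (I → Bool) × H => fun i => bif q.1 i then p i else q.2) '' (Z ×ˢ univ) := by
    ext x
    constructor
    · rintro ⟨A, hA, v, rfl⟩
      refine ⟨(fun i => decide (i ∈ A), v), ⟨?_, trivial⟩, ?_⟩
      · intro i j hij hi
        have hi' : i ∈ A := by simpa using hi
        simpa using hA i hi' hij
      · funext i
        by_cases hi : i ∈ A
        · simp [hi, mix_of_mem]
        · simp [hi, mix_of_notMem]
    · rintro ⟨⟨χ, v⟩, ⟨hχ, -⟩, rfl⟩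
      refine ⟨{i | χ i = true}, fun i hi j hj => hχ i j hj hi, v, ?_⟩
      funext i
      by_cases hi : χ i = true
      · rw [mix_of_mem _ _ (show i ∈ {i | χ i = true} from hi)]
        simp [hi]
      · rw [mix_of_notMem _ _ (show i ∉ {i | χ i = true} from hi)]
        simp [hi]
  rw [h1]
  apply (hZ.isCompact.prod isCompact_univ).image
  apply continuous_pi
  intro i
  have h2 : Continuous fun q : Bool × H => bif q.1 then p i else q.2 := by
    rw [continuous_prod_of_discrete_left]
    intro b
    cases b
    · exact continuous_id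
    · exact continuous_const
  have h3 : Continuous fun q : (I → Bool) × H => (q.1 i, q.2) :=
    ((continuous_apply i).comp continuous_fst).prodMk continuous_snd
  exact h2.comp h3

lemma small_k (hI : #I ≤ ℵ_ 1) : IsKSpace (Sp H I) := by
  obtain ⟨r, wo, hr⟩ := Cardinal.exists_ord_eq I
  have hwt : ∀ i, {j | r j i}.Countable := by
    intro i
    rw [← Cardinal.le_aleph0_iff_set_countable]
    have h1 : #{j // r j i} < #I := by
      rw [← Ordinal.card_typein]
      exact Cardinal.card_typein_lt i hr
    have h2 : #{j // r j i} < ℵ_ 1 := h1.trans_le hI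
    rw [← Cardinal.succ_aleph0, Order.lt_succ_iff] at h2
    exact h2
  intro C hC
  have hCK : ∀ M : Set (I → H), IsCompact M → M ⊆ cc H I →
      IsCompact ((Subtype.val '' C : Set (I → H)) ∩ M) := by
    intro M hM hMc
    have hK := isCompact_preimage_val hM hMc
    have h1 := hC _ hK
    have h2 : CompactSpace ((↑) ⁻¹' M : Set (Sp H I)) := isCompact_iff_compactSpace.1 hK
    have h3 := (h1.isCompact.image continuous_subtype_val).image
      (continuous_subtype_val (p := fun x => x ∈ cc H I))
    convert h3 using 1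
    ext x
    constructor
    · rintro ⟨⟨c, hc, rfl⟩, hx⟩
      exact ⟨c, ⟨⟨c, hx⟩, hc, rfl⟩, rfl⟩
    · rintro ⟨_, ⟨⟨c, hx⟩, hc, rfl⟩, rfl⟩
      exact ⟨⟨c, hc, rfl⟩, hx⟩
  rw [← closure_subset_iff_isClosed]
  intro p hp
  have hp' : p.1 ∈ closure (Subtype.val '' C : Set (I → H)) :=
    image_closure_subset_closure_image continuous_subtype_val ⟨p, hp, rfl⟩
  let M : Set (I → H) := {x | ∃ A : Set I, (∀ i ∈ A, {j | r j i} ⊆ A) ∧ ∃ v, mix p.1 A v = x}
  have hM : IsCompact M := mix_compact r p.1
  have hMc : M ⊆ cc H I := by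
    rintro _ ⟨A, hA, v, rfl⟩
    by_cases h : ∃ i, i ∉ A
    · obtain ⟨i, hi⟩ := h
      apply mix_cc
      refine (hwt i).mono ?_
      intro j hj
      rcases trichotomous_of r j i with h1 | h1 | h1
      · exact h1
      · exact absurd (h1 ▸ hj) hi
      · exact absurd (hA j hj h1) hi
    · push Not at h
      have : mix p.1 A v = p.1 := by
        funext i
        exact mix_of_mem _ _ (h i)
      rw [this]
      exact p.2
  have hcl : p.1 ∈ closure ((Subtype.val '' C : Set (I → H)) ∩ M) := by
    apply mem_closure_of_finset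
    intro E
    obtain ⟨A, hA, hEA, hAw, v, hv⟩ := key (Subtype.val '' C)
      (fun A hA => hCK _ (GA_compact A univ isCompact_univ) (GA_sub hA univ))
      (by rintro _ ⟨c, -, rfl⟩; exact c.2) p.1 hp' (fun i => {j | r j i}) hwt E
      E.finite_toSet.countable
    exact ⟨mix p.1 A v, ⟨hv, A, hAw, v, rfl⟩, fun e he => mix_of_mem _ _ (hEA he)⟩
  rw [(hCK M hM hMc).isClosed.closure_eq] at hcl
  obtain ⟨⟨q, hq, hqp⟩, -⟩ := hcl
  have : q = p := Subtype.ext hqp
  rwa [← this]

end small

section spaceresult

variable (H : Type w) (I : Type u) [TopologicalSpace H] [CompactSpace H] [T2Space H]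
  [FirstCountableTopology H]

/-- the classification for spaces -/
theorem spaces [Nontrivial H] :
    T35Space (Sp H I) ∧
    (∀ s : Set (Sp H I), s.Countable → IsCompact (closure s)) ∧
    (∀ (ι : Type v) (F : ι → Set (Sp H I)), ¬ IsFan F) ∧
    (IsKSpace (Sp H I) ↔ #I ≤ ℵ_ 1) ∧
    (IsKRSpace (Sp H I) ↔ #I ≤ ℵ_ 1) := by
  have h0 : IsKRSpace (Sp H I) → #I ≤ ℵ_ 1 := by
    intro h
    by_contra hlt
    rw [not_le] at hlt
    have hIu : Uncountable I := unc_of_lt hlt
    obtain ⟨a, b, hab⟩ := exists_pair_ne H
    obtain ⟨f, hfa, hfb, -⟩ := exists_continuous_zero_one_of_isClosed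
      (isClosed_singleton (x := a)) (isClosed_singleton (x := b))
      (disjoint_singleton.2 hab)
    have h1 : f a ≠ f b := by
      rw [hfa (mem_singleton a), hfb (mem_singleton b)]
      exact zero_ne_one
    refine not_cont (H := H) (I := I) f h1 (h _ ?_)
    intro K hK
    exact f.continuous.comp_continuousOn (lim_contOn hlt K hK)
  refine ⟨inferInstance, closure_compact, fun ι F => no_fan_of closure_compact F, ?_, ?_⟩
  · exact ⟨fun h => h0 (kspace_kR h), small_k⟩
  · exact ⟨h0, fun h => kspace_kR (small_k h)⟩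

end spaceresult

section groups

/-- the subgroup of `H ^ I` of all functions which are constant off a countable set -/
def Gp (H : Type w) (I : Type u) [Group H] : Subgroup (I → H) where
  carrier := cc H I
  mul_mem' := by
    rintro x y ⟨g, hg⟩ ⟨h, hh⟩
    refine ⟨g * h, (hg.union hh).mono ?_⟩
    intro i hi
    by_cases h1 : x i = g
    · right
      intro h2
      apply hi
      rw [Pi.mul_apply, h1, h2]
    · left
      exact h1
  one_mem' := ⟨1, by simp⟩
  inv_mem' := by
    rintro x ⟨g, hg⟩
    refine ⟨g⁻¹, hg.mono ?_⟩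
    intro i hi h1
    apply hi
    rw [Pi.inv_apply, h1]

variable {H : Type w} {I : Type u} [Group H]

/-- the value off a countable set, a homomorphism -/
noncomputable def limHom [Uncountable I] : Gp H I →* H where
  toFun x := lim (⟨x.1, x.2⟩ : Sp H I)
  map_one' := lim_eq _ (by simp)
  map_mul' x y := by
    apply lim_eq
    refine ((lim_spec (⟨x.1, x.2⟩ : Sp H I)).union (lim_spec (⟨y.1, y.2⟩ : Sp H I))).mono ?_
    intro i hi
    by_cases h1 : x.1 i = lim (⟨x.1, x.2⟩ : Sp H I)
    · right
      intro h2
      apply hi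
      change x.1 i * y.1 i = _
      rw [h1, h2]
    · left
      exact h1

end groups

/-- every homomorphism `Gp H I →* H` is continuous if its restrictions to all compact sets are -/
def KHom (H : Type w) (I : Type u) [Group H] [TopologicalSpace H] : Prop :=
  ∀ f : Gp H I →* H, (∀ K : Set (Gp H I), IsCompact K → ContinuousOn f K) → Continuous f

/-- `Gp H I` is a dense subgroup of `H ^ I`, it is a Tychonoff topological group, its countable
subsets have compact closure and it contains no fan -/
def Nice (H : Type w) (I : Type u) [Group H] [TopologicalSpace H] : Prop :=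
  Dense (Gp H I : Set (I → H)) ∧ IsTopologicalGroup (Gp H I) ∧ T35Space (Gp H I) ∧
    OmegaBounded (Gp H I) ∧ NoFan.{v} (Gp H I)

/-- the classification for groups -/
theorem groups (H : Type w) (I : Type u) [Group H] [TopologicalSpace H] [IsTopologicalGroup H]
    [CompactSpace H] [T2Space H] [FirstCountableTopology H] [Nontrivial H] :
    Nice.{u, v, w} H I ∧ (IsKSpace (Gp H I) ↔ #I ≤ ℵ_ 1) ∧ (IsKRSpace (Gp H I) ↔ #I ≤ ℵ_ 1) ∧
      (KHom H I ↔ #I ≤ ℵ_ 1) := by
  have hs := spaces.{u, v, w} H I
  refine ⟨⟨?_, inferInstance, hs.1, hs.2.1, hs.2.2.1⟩, hs.2.2.2.1, hs.2.2.2.2, ?_⟩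
  · intro p
    apply mem_closure_of_finset
    intro E
    exact ⟨mix p E 1, mix_cc p E.finite_toSet.countable 1, fun e he => mix_of_mem _ _ he⟩
  · constructor
    · intro h
      by_contra hlt
      rw [not_le] at hlt
      have hIu : Uncountable I := unc_of_lt hlt
      obtain ⟨a, b, hab⟩ := exists_pair_ne H
      have h1 := h limHom (fun K hK => lim_contOn (H := H) (I := I) hlt K hK)
      exact not_cont (H := H) (I := I) (fun x => x) hab h1
    · intro h f hf
      exact kspace_cont (small_k (H := H) (I := I) h) f hf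

/-- There is a Tychonoff topological group, of exponent 2, all of whose countable subsets have
compact closure, which contains no fan (in particular no Cld-fan) and which is not a `k`-space, not
even a `k_R`-space. -/
def Answer : Prop :=
  ∃ (X : Type) (_ : Group X) (_ : TopologicalSpace X), IsTopologicalGroup X ∧ T35Space X ∧
    (∀ x : X, x * x = 1) ∧ OmegaBounded X ∧ NoFan.{v} X ∧ NoCldFan.{v} X ∧
    ¬ IsKRSpace X ∧ ¬ IsKSpace X

/-- **Answer to Q1, for topological groups and with the exact threshold.** There is a Tychonoff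
topological group, of exponent 2, all of whose countable subsets have compact closure, which
contains no fan (in particular no Cld-fan) and which is not a `k`-space, not even a `k_R`-space.
More precisely, for every nontrivial compact metrizable group `H` and every set `I` the dense
subgroup `Gp H I` of `H ^ I` is such that every countable subset has compact closure, it contains
no fan, and it is a `k`-space iff it is a `k_R`-space iff all homomorphisms to `H` with continuous
restrictions to compact sets are continuous iff `I` has at most `ℵ_1` elements. -/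
theorem result : Answer.{v} ∧
    ∀ (H : Type w) (I : Type u) [Group H] [TopologicalSpace H] [IsTopologicalGroup H]
      [CompactSpace H] [T2Space H] [FirstCountableTopology H] [Nontrivial H],
      Nice.{u, v, w} H I ∧ (IsKSpace (Gp H I) ↔ #I ≤ ℵ_ 1) ∧
        (IsKRSpace (Gp H I) ↔ #I ≤ ℵ_ 1) ∧ (KHom H I ↔ #I ≤ ℵ_ 1) := by
  refine ⟨?_, fun H I => groups.{u, v, w} H I⟩
  let I : Type := (ℵ_ 2 : Cardinal.{0}).out
  let H : Type := Multiplicative (ZMod 2)
  have hI : ¬ #I ≤ ℵ_ 1 := by
    rw [Cardinal.mk_out, not_le]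
    exact Cardinal.aleph_lt_aleph.2 (by norm_num)
  have hg := groups.{0, v, 0} H I
  refine ⟨Gp H I, inferInstance, inferInstance, hg.1.2.1, hg.1.2.2.1, ?_, hg.1.2.2.2.1,
    hg.1.2.2.2.2, fun ι F h => hg.1.2.2.2.2 ι F h.1, fun h => hI (hg.2.2.1.1 h),
    fun h => hI (hg.2.1.1 h)⟩
  intro x
  apply Subtype.ext
  funext i
  change (x.1 i : Multiplicative (ZMod 2)) * x.1 i = 1
  have h1 : ∀ z : Multiplicative (ZMod 2), z * z = 1 := by decide
  exact h1 _

end Pool.Agent.Results.MP_99bf3a_gt.GroupsThreshold
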